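import Pool.Agent.H19.Sch

/-! A combinatorial Banach space with the Schur property whose family fails `(S*)`. -/

set_option maxHeartbeats 400000

namespace Pool.Agent.Results.MP_8d662a_an.Shift

open Finset Filter Topology Pool.Agent.H19.Sch

/-- `‖x‖_F = sup_{B ∈ F} ∑_{i ∈ B} |x i|`, in `[0, ∞]`. -/
noncomputable def normF (F : Set (Finset ℕ)) (x : ℕ → ℝ) : ENNReal :=
  ⨆ B ∈ F, ENNReal.ofReal (∑ i ∈ B, |x i|)

/-- The space `X_F`: the sequences whose tails `P_{[n, ∞)} x` tend to `0` in norm. -/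
def X (F : Set (Finset ℕ)) : Set (ℕ → ℝ) :=
  {x | Tendsto (fun n : ℕ => normF F ((Set.Ici n).indicator x)) atTop (𝓝 0)}

/-- `φ` restricts to a bounded linear functional on `X_F`. -/
def IsFunctional (F : Set (Finset ℕ)) (φ : (ℕ → ℝ) → ℝ) : Prop :=
  (∀ x ∈ X F, ∀ y ∈ X F, φ (x + y) = φ x + φ y) ∧ (∀ (c : ℝ), ∀ x ∈ X F, φ (c • x) = c * φ x) ∧
    ∃ C : ℝ, ∀ x ∈ X F, |φ x| ≤ C * (normF F x).toReal

/-- The Schur property of `X_F`: weakly convergent sequences converge in norm. -/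
def Schur (F : Set (Finset ℕ)) : Prop :=
  ∀ (x : ℕ → ℕ → ℝ) (z : ℕ → ℝ), (∀ n, x n ∈ X F) → z ∈ X F →
    (∀ φ, IsFunctional F φ → Tendsto (fun n => φ (x n)) atTop (𝓝 (φ z))) →
    Tendsto (fun n => normF F (x n - z)) atTop (𝓝 0)

/-- The closure of `F`: the sets all of whose finite subsets lie in `F`. -/
def cl (F : Set (Finset ℕ)) : Set (Set ℕ) := {A | ∀ B : Finset ℕ, (B : Set ℕ) ⊆ A → B ∈ F}

/-- Property `(S*)`. -/
def SStar (F : Set (Finset ℕ)) : Prop :=
  ∀ G : ℕ → Finset ℕ, (∀ n, G n ∈ F) → (∀ m n, m ≠ n → Disjoint (G m) (G n)) →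
    ∃ 𝒜 : Set (Set ℕ), 𝒜.Finite ∧ 𝒜 ⊆ cl F ∧ {n | (G n : Set ℕ) ⊆ ⋃₀ 𝒜}.Infinite

def lo (v : ℕ) : ℕ := v.unpair.1

def hi (v : ℕ) : ℕ := v.unpair.1 + v.unpair.2 + 1

def F0 : Set (Finset ℕ) := {B | ∀ u ∈ B, ∀ v ∈ B, hi u ≠ lo v}

lemma four (x : ℕ → ℝ) (N : ENNReal) (h : normF F0 x ≤ N) (hN : N ≠ ⊤) (B : Finset ℕ) :
    ∑ i ∈ B, |x i| ≤ 4 * N.toReal := by
  have hb : ∀ D ∈ F0, ∑ i ∈ D, |x i| ≤ N.toReal := fun D hD =>
    (ENNReal.ofReal_le_iff_le_toReal hN).1 ((le_iSup₂_of_le D hD le_rfl).trans h)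
  obtain ⟨S, hS⟩ := cut lo hi (fun v => by simp only [lo, hi]; omega) B (fun i => |x i|)
    (B.sup hi + 1)
  have lt : ∀ v ∈ B, hi v < B.sup hi + 1 := fun v hv => Nat.lt_succ_of_le (le_sup hv)
  rw [sum_congr rfl fun v hv => if_pos (lt v hv)] at hS
  have h1 := hb (B.filter fun v => S (lo v) = true ∧ S (hi v) = false) fun u hu v hv e => by
    have := (mem_filter.1 hu).2.2
    rw [e, (mem_filter.1 hv).2.1] at this
    cases this
  have h2 := hb (B.filter fun v => S (lo v) = false ∧ S (hi v) = true) fun u hu v hv e => by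
    have := (mem_filter.1 hu).2.2
    rw [e, (mem_filter.1 hv).2.1] at this
    cases this
  rw [sum_filter] at h1 h2
  have h3 : (∑ v ∈ B, if hi v < B.sup hi + 1 ∧ S (lo v) ≠ S (hi v) then |x v| else 0) =
      (∑ v ∈ B, if S (lo v) = true ∧ S (hi v) = false then |x v| else 0) +
      ∑ v ∈ B, if S (lo v) = false ∧ S (hi v) = true then |x v| else 0 := by
    rw [← sum_add_distrib]
    refine sum_congr rfl fun v hv => ?_
    cases S (lo v) <;> cases S (hi v) <;> simp [lt v hv]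
  linarith

lemma norm_le {x : ℕ → ℝ} (h : Summable fun i => |x i|) :
    normF F0 x ≤ ENNReal.ofReal (∑' i, |x i|) :=
  iSup₂_le fun B _ => ENNReal.ofReal_le_ofReal (h.sum_le_tsum B fun _ _ => abs_nonneg _)

lemma summ {x : ℕ → ℝ} (h : x ∈ X F0) : Summable fun i => |x i| := by
  obtain ⟨n, hn⟩ := (h.eventually (ge_mem_nhds (show (0 : ENNReal) < 1 by simp))).exists
  have h1 : Summable fun i => |(Set.Ici n).indicator x i| :=
    summable_of_sum_le (fun _ => abs_nonneg _) (four _ 1 hn (by simp))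
  refine (summable_nat_add_iff n).1 (((summable_nat_add_iff n).2 h1).congr fun i => ?_)
  rw [Set.indicator_of_mem (by simp)]

lemma schur0 : Schur F0 := by
  intro x z hx hz h
  have sd : ∀ n, Summable fun i => |(x n - z) i| := fun n =>
    ((summ (hx n)).of_abs.sub (summ hz).of_abs).abs
  have := schur (fun n => x n - z) sd fun ε hε => by
    have h1 := h (fun y => ∑' i, ε i * y i) ⟨fun a ha b hb => by
      simp only [Pi.add_apply, mul_add]
      exact (sg_summable (summ ha) ε hε).tsum_add (sg_summable (summ hb) ε hε), fun c a _ => by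
      simp only [Pi.smul_apply, smul_eq_mul, mul_left_comm _ c, tsum_mul_left], 4, fun a ha => by
      have s1 := summ ha
      refine le_trans ?_ (s1.tsum_le_of_sum_le (four a _ le_rfl
        (ne_top_of_le_ne_top ENNReal.ofReal_ne_top (norm_le s1))))
      rw [← Real.norm_eq_abs]
      refine tsum_of_norm_bounded s1.hasSum fun i => ?_
      rw [Real.norm_eq_abs, abs_mul]
      exact mul_le_of_le_one_left (abs_nonneg _) (hε i)⟩
    refine (tendsto_sub_nhds_zero_iff.2 h1).congr fun n => ?_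
    simp only [Pi.sub_apply, mul_sub]
    exact ((sg_summable (summ (hx n)) ε hε).tsum_sub (sg_summable (summ hz) ε hε)).symm
  refine tendsto_of_tendsto_of_tendsto_of_le_of_le tendsto_const_nhds ?_ (fun _ => zero_le)
    fun n => norm_le (sd n)
  simpa using ENNReal.tendsto_ofReal this

lemma not_sstar : ¬ SStar F0 := by
  intro h
  let p : ℕ → ℕ → ℕ := fun i j => Nat.pair i (j - i - 1)
  have pl : ∀ i j, lo (p i j) = i := fun i j => by simp [p, lo]
  have ph : ∀ i j, i < j → hi (p i j) = j := fun i j h => by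
    simp only [p, hi, Nat.unpair_pair]
    omega
  obtain ⟨𝒜, h1, h2, h3⟩ := h (fun n => (range n).image fun i => p i n) (fun n u hu v hv => by
      obtain ⟨i, hi, rfl⟩ := mem_image.1 hu
      obtain ⟨j, hj, rfl⟩ := mem_image.1 hv
      rw [ph i n (mem_range.1 hi), pl]
      exact (mem_range.1 hj).ne') fun m n hmn => disjoint_left.2 fun u hu hv => by
      obtain ⟨i, hi, rfl⟩ := mem_image.1 hu
      obtain ⟨j, hj, e⟩ := mem_image.1 hv
      exact hmn (by rw [← ph i m (mem_range.1 hi), ← e, ph j n (mem_range.1 hj)])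
  obtain ⟨i, -, j, hj, hij, e⟩ := h3.exists_lt_map_eq_of_mapsTo
    (f := fun j => {A ∈ 𝒜 | ∃ l, p j l ∈ A}) (t := 𝒫 𝒜) (fun j _ A hA => hA.1) h1.powerset
  obtain ⟨A, hA, hp⟩ := hj (show p i j ∈ ((range j).image fun i => p i j : Finset ℕ) from
    mem_image.2 ⟨i, mem_range.2 hij, rfl⟩)
  obtain ⟨-, l, hl⟩ := (Set.ext_iff.1 e A).1 ⟨hA, j, hp⟩
  refine h2 hA {p i j, p j l} (by intro v hv; simp at hv; rcases hv with rfl | rfl; exacts [hp, hl])
    (p i j) (by simp) (p j l) (by simp) ?_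
  rw [ph i j hij, pl]

theorem result : ∃ F : Set (Finset ℕ), (∀ B ∈ F, ∀ C ⊆ B, C ∈ F) ∧ (∀ i, {i} ∈ F) ∧
    Schur F ∧ ¬ SStar F :=
  ⟨F0, fun _ hB _ hC u hu v hv => hB u (hC hu) v (hC hv), fun i u hu v hv => by
    rw [mem_singleton.1 hu, mem_singleton.1 hv]
    simp only [lo, hi]
    omega, schur0, not_sstar⟩

end Pool.Agent.Results.MP_8d662a_an.Shift
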